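import Pool.Agent.W798.KF.Stm

set_option autoImplicit false

open Finset
open scoped Pointwise

namespace Pool.Agent.W20.KF

open Pool.Agent.W798.SP Pool.Agent.W798.KF

lemma ep1 (A S P : Finset ℝ) (hA : ∀ a ∈ A, 0 < a) :
    ∑ l ∈ S, (fib A l).card * (fib P l).card ≤
      ∑ z ∈ P / A, (A.filter (fun x => z * x ∈ P)).card ^ 2 := by
  have h1 : ∑ l ∈ S, (fib A l).card * (fib P l).card =
      (S.sigma (fun l => fib A l ×ˢ fib P l)).card := by
    rw [Finset.card_sigma]
    exact Finset.sum_congr rfl fun l _ => (Finset.card_product _ _).symm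
  have h2 : ∑ z ∈ P / A, (A.filter (fun x => z * x ∈ P)).card ^ 2 =
      ((P / A).sigma (fun z => (A.filter (fun x => z * x ∈ P)) ×ˢ
        (A.filter (fun x => z * x ∈ P)))).card := by
    rw [Finset.card_sigma]
    exact Finset.sum_congr rfl fun z _ => by rw [Finset.card_product, sq]
  rw [h1, h2]
  refine Finset.card_le_card_of_injOn
    (fun p => (⟨p.2.2 / p.2.1, (p.2.1, p.1 * p.2.1)⟩ : Σ _ : ℝ, ℝ × ℝ)) ?_ ?_
  · rintro ⟨l, a, x⟩ h
    simp only [Finset.coe_sigma, Set.mem_sigma_iff, Finset.mem_coe, Finset.mem_product, fib,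
      Finset.mem_filter] at h ⊢
    obtain ⟨-, ⟨ha, hla⟩, hx, hlx⟩ := h
    have ha0 : a ≠ 0 := (hA a ha).ne'
    refine ⟨Finset.div_mem_div hx ha, ⟨ha, ?_⟩, hla, ?_⟩
    · rwa [div_mul_cancel₀ _ ha0]
    · have : x / a * (l * a) = l * x := by field_simp
      rwa [this]
  · rintro ⟨l, a, x⟩ h ⟨l', a', x'⟩ h' he
    simp only [Finset.coe_sigma, Set.mem_sigma_iff, Finset.mem_coe, Finset.mem_product, fib,
      Finset.mem_filter] at h h'
    have ha0 : a ≠ 0 := (hA a h.2.1.1).ne'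
    simp only [Sigma.mk.injEq, heq_eq_eq, Prod.mk.injEq] at he
    obtain ⟨he1, he2, he3⟩ := he
    subst he2
    have e1 : l = l' := mul_right_cancel₀ ha0 he3
    have e2 : x = x' := by
      have := congrArg (fun t => t * a) he1
      simpa [div_mul_cancel₀ _ ha0] using this
    subst e1 e2
    rfl

lemma ep3 (A P Z : Finset ℝ) (hA : ∀ a ∈ A, 0 < a) :
    ∑ z ∈ Z, (A.filter (fun x => z * x ∈ P)).card ≤ A.card * P.card := by
  rw [← Finset.card_sigma, ← Finset.card_product]
  refine Finset.card_le_card_of_injOn (fun p => (p.2, p.1 * p.2)) ?_ ?_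
  · rintro ⟨z, a⟩ h
    simp only [Finset.coe_sigma, Set.mem_sigma_iff, Finset.mem_coe,
      Finset.mem_filter] at h
    simp only [Finset.coe_product, Set.mem_prod, Finset.mem_coe]
    exact ⟨h.2.1, h.2.2⟩
  · rintro ⟨z, a⟩ h ⟨z', a'⟩ h' he
    simp only [Finset.coe_sigma, Set.mem_sigma_iff, Finset.mem_coe,
      Finset.mem_filter] at h h'
    simp only [Prod.mk.injEq] at he
    obtain ⟨he1, he2⟩ := he
    subst he1
    have ha0 : a ≠ 0 := (hA a h.2.1).ne'
    have : z = z' := mul_right_cancel₀ ha0 he2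
    subst this
    rfl

theorem tEP (hTM : S_TM) : S_EP := by
  intro A H S hH hA hS
  have hZ0 : ∀ z ∈ (A * A) / A, z ≠ 0 := by
    intro z hz
    obtain ⟨p, hp, a, ha, rfl⟩ := Finset.mem_div.1 hz
    obtain ⟨b, hb, c, hc, rfl⟩ := Finset.mem_mul.1 hp
    have := hA a ha
    have := hA b hb
    have := hA c hc
    positivity
  have hZc : ((A * A) / A).card ≤ A.card * (A * A).card := by
    exact (Finset.card_div_le (s := A * A) (t := A)).trans_eq (Nat.mul_comm _ _)
  have hT := hTM A H (A * A) ((A * A) / A) hH hZ0 hZc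
  have h1 := ep1 A S (A * A) hA
  have h3 := ep3 A (A * A) ((A * A) / A) hA
  have h2 : (∑ z ∈ (A * A) / A, (A.filter (fun x => z * x ∈ A * A)).card ^ 2) ^ 2 ≤
      (∑ z ∈ (A * A) / A, (A.filter (fun x => z * x ∈ A * A)).card) *
        ∑ z ∈ (A * A) / A, (A.filter (fun x => z * x ∈ A * A)).card ^ 3 :=
    Finset.sum_sq_le_sum_mul_sum_of_sq_le_mul _ (fun _ _ => Nat.zero_le _)
      (fun _ _ => Nat.zero_le _) (fun _ _ => le_of_eq (by ring))
  calc H.card * (∑ l ∈ S, (fib A l).card * (fib (A * A) l).card) ^ 2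
      ≤ H.card * (∑ z ∈ (A * A) / A, (A.filter (fun x => z * x ∈ A * A)).card ^ 2) ^ 2 := by
        gcongr
    _ ≤ H.card * ((∑ z ∈ (A * A) / A, (A.filter (fun x => z * x ∈ A * A)).card) *
        ∑ z ∈ (A * A) / A, (A.filter (fun x => z * x ∈ A * A)).card ^ 3) := by
        gcongr
    _ = (∑ z ∈ (A * A) / A, (A.filter (fun x => z * x ∈ A * A)).card) * (H.card *
        ∑ z ∈ (A * A) / A, (A.filter (fun x => z * x ∈ A * A)).card ^ 3) := by ring
    _ ≤ (A.card * (A * A).card) *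
        (4097 * (Nat.log 2 (A + H).card + 1) * ((A + H).card * (A * A).card) ^ 2) := by
        gcongr
    _ = 4097 * (Nat.log 2 (A + H).card + 1) * A.card * (A * A).card ^ 3 * (A + H).card ^ 2 := by
        ring

end Pool.Agent.W20.KF
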